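import Mathlib

/-!
# The eviction game on a finite graph
-/

namespace Pool.Agent.Q238.EV

variable {V : Type} [DecidableEq V]

/-- `D` is a dominating set of `G`. -/
def IsDominating (G : SimpleGraph V) (D : Finset V) : Prop :=
  ∀ v, v ∈ D ∨ ∃ w ∈ D, G.Adj v w

/-- `F` is an eternal dominating family of `G` in the eviction game, all of whose members have
`k` elements: for every `D ∈ F` and every occupied vertex `v ∈ D`, either `N[v] ⊆ D`, or the
guard on `v` can move to a neighbour `w ∉ D` such that `(D ∪ {w}) \ {v}` is in `F`. -/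
structure IsEternalFamily (G : SimpleGraph V) (k : ℕ) (F : Finset (Finset V)) : Prop where
  nonempty : F.Nonempty
  card_eq : ∀ D ∈ F, D.card = k
  dominating : ∀ D ∈ F, IsDominating G D
  move : ∀ D ∈ F, ∀ v ∈ D, (∀ w, G.Adj v w → w ∈ D) ∨
    ∃ w, G.Adj v w ∧ w ∉ D ∧ (D ∪ {w}) \ {v} ∈ F

/-- The eviction number `e^∞(G)`: the least common size of the sets of an eternal dominating
family. -/
noncomputable def evictionNumber (G : SimpleGraph V) : ℕ :=
  sInf {k | ∃ F, IsEternalFamily G k F}

end Pool.Agent.Q238.EV
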