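import Mathlib
import Pool.Agent.Q238.EV.Comp
import Pool.Agent.Q238.EV.Defs

namespace Pool.Agent.Q238.EV

/-- neighbours as a list of numbers -/
def nbl (a : ℕ) : List ℕ := (adjL.getD a (0, [])).2

/-- The generalized Petersen graph `P(7,2)`. -/
def P : SimpleGraph (Fin 14) where
  Adj a b := (b : ℕ) ∈ nbl a
  symm := ⟨by decide +kernel⟩
  loopless := ⟨by decide +kernel⟩

instance : DecidableRel P.Adj := fun a b => inferInstanceAs (Decidable ((b : ℕ) ∈ nbl a))

/-- the mask of a set -/
def code (D : Finset (Fin 14)) : ℕ := Nat.ofBits (fun v : Fin 14 => decide (v ∈ D))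

lemma testBit_code (D : Finset (Fin 14)) (v : Fin 14) : (code D).testBit v = decide (v ∈ D) := by
  unfold code
  rw [Nat.testBit_ofBits_lt _ _ v.2]

lemma testBit_code_ge (D : Finset (Fin 14)) {i : ℕ} (h : 14 ≤ i) :
    (code D).testBit i = false := by
  unfold code
  exact Nat.testBit_ofBits_ge _ _ h

lemma code_lt (D : Finset (Fin 14)) : code D < 128 * 128 := by
  have := Nat.ofBits_lt_two_pow (fun v : Fin 14 => decide (v ∈ D))
  unfold code
  norm_num at this ⊢
  exact this

lemma code_move {D : Finset (Fin 14)} {v w : Fin 14} (hv : v ∈ D) (hw : w ∉ D) :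
    code ((D ∪ {w}) \ {v}) = (code D ^^^ 2 ^ (v : ℕ)) ^^^ 2 ^ (w : ℕ) := by
  apply Nat.eq_of_testBit_eq
  intro i
  rw [Nat.testBit_xor, Nat.testBit_xor, Nat.testBit_two_pow, Nat.testBit_two_pow]
  rcases lt_or_ge i 14 with h | h
  · have h1 := testBit_code D ⟨i, h⟩
    have h2 := testBit_code ((D ∪ {w}) \ {v}) ⟨i, h⟩
    simp only at h1 h2
    rw [h1, h2]
    have e1 : ((v : ℕ) = i) ↔ (⟨i, h⟩ : Fin 14) = v := by
      constructor
      · intro h; ext; exact h.symm
      · intro h; rw [← h]
    have e2 : ((w : ℕ) = i) ↔ (⟨i, h⟩ : Fin 14) = w := by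
      constructor
      · intro h; ext; exact h.symm
      · intro h; rw [← h]
    simp only [e1, e2]
    generalize (⟨i, h⟩ : Fin 14) = x
    have hvw : v ≠ w := fun h => hw (h ▸ hv)
    by_cases hxv : x = v
    · subst hxv
      simp [hv, hvw]
    · by_cases hxw : x = w
      · subst hxw
        simp [hw, hxv]
      · simp [hxv, hxw]
  · rw [testBit_code_ge _ h, testBit_code_ge _ h]
    have h1 : (v : ℕ) ≠ i := by have := v.2; omega
    have h2 : (w : ℕ) ≠ i := by have := w.2; omega
    simp [h1, h2]

lemma pc_code (D : Finset (Fin 14)) : pc (code D) = D.card := by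
  have h : ∀ v : Fin 14, ((code D).testBit v).toNat = if v ∈ D then 1 else 0 := by
    intro v
    rw [testBit_code]
    by_cases h : v ∈ D <;> simp [h]
  have h2 : D.card = ∑ v : Fin 14, if v ∈ D then 1 else 0 := by simp
  rw [h2]
  unfold pc
  rw [Fin.sum_univ_castSucc, Fin.sum_univ_castSucc, Fin.sum_univ_castSucc, Fin.sum_univ_castSucc,
    Fin.sum_univ_castSucc, Fin.sum_univ_castSucc, Fin.sum_univ_castSucc, Fin.sum_univ_castSucc,
    Fin.sum_univ_castSucc, Fin.sum_univ_castSucc, Fin.sum_univ_castSucc, Fin.sum_univ_castSucc,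
    Fin.sum_univ_castSucc, Fin.sum_univ_castSucc]
  simp only [← h]
  simp

lemma chk1_code (D : Finset (Fin 14)) : chk1 (code D) = true := by
  have h := chk_true
  unfold chk at h
  rw [List.all_eq_true] at h
  have h1 := h (code D / 128) (by rw [List.mem_range]; have := code_lt D; omega)
  rw [List.all_eq_true] at h1
  have h2 := h1 (code D % 128) (by rw [List.mem_range]; omega)
  rwa [Nat.div_add_mod] at h2

lemma adj_nat {a b : Fin 14} : P.Adj a b ↔ (b : ℕ) ∈ nbl a := Iff.rfl

lemma adjL_spec : ∀ p ∈ adjL, p.1 < 14 ∧ p.2 = nbl p.1 ∧ ∀ w ∈ p.2, w < 14 := by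
  decide +kernel

lemma cl_spec : ∀ c ∈ cl, ∃ v : Fin 14, c.testBit v = true ∧
    ∀ u : Fin 14, (u : ℕ) ∈ nbl v → c.testBit u = true := by
  decide +kernel

lemma ed_spec : ∀ c ∈ ed, ∃ a b : Fin 14, (b : ℕ) ∈ nbl a ∧ c.testBit a = true ∧
    c.testBit b = true := by
  decide +kernel

lemma dom_code {D : Finset (Fin 14)} (hD : IsDominating P D) : dom (code D) = true := by
  unfold dom
  rw [List.all_eq_true]
  intro c hc
  obtain ⟨v, hv, hu⟩ := cl_spec c hc
  obtain ⟨u, huD, huc⟩ : ∃ u ∈ D, c.testBit (u : ℕ) = true := by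
    rcases hD v with h | ⟨w, hw, hvw⟩
    · exact ⟨v, h, hv⟩
    · exact ⟨w, hw, hu w hvw⟩
  have h : (code D &&& c).testBit u = true := by
    rw [Nat.testBit_and, testBit_code, huc]
    simp [huD]
  have h2 : code D &&& c ≠ 0 := by
    intro h0
    rw [h0, Nat.zero_testBit] at h
    exact Bool.false_ne_true h
  have : Nat.beq (code D &&& c) 0 = false := by
    rw [← Bool.not_eq_true]
    intro h3
    exact h2 (Nat.eq_of_beq_eq_true h3)
  rw [this]; rfl

lemma ind_code {D : Finset (Fin 14)} (hD : P.IsIndepSet D) : ind (code D) = true := by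
  unfold ind
  rw [List.all_eq_true]
  intro c hc
  obtain ⟨a, b, hab, ha, hb⟩ := ed_spec c hc
  have : Nat.beq (code D &&& c) c = false := by
    rw [← Bool.not_eq_true]
    intro h3
    have h4 := Nat.eq_of_beq_eq_true h3
    have h5 : (code D).testBit a = true := by
      rw [← h4, Nat.testBit_and] at ha
      exact (Bool.and_eq_true_iff.1 ha).1
    have h6 : (code D).testBit b = true := by
      rw [← h4, Nat.testBit_and] at hb
      exact (Bool.and_eq_true_iff.1 hb).1
    rw [testBit_code] at h5 h6
    have h5' : a ∈ D := by simpa using h5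
    have h6' : b ∈ D := by simpa using h6
    have hadj : P.Adj a b := hab
    exact hD h5' h6' hadj.ne hadj
  rw [this]; rfl

/-- invariant -/
def Inv (F : Finset (Finset (Fin 14))) (A : ℕ) : Prop := ∀ D ∈ F, A.testBit (code D) = true

lemma kill_spec {k : ℕ} {F : Finset (Finset (Fin 14))} (hF : IsEternalFamily P k F) {A m : ℕ}
    (hA : Inv F A) (hk : kill A m = true) : ∀ D ∈ F, code D ≠ m := by
  rintro D hD rfl
  unfold kill at hk
  rw [List.any_eq_true] at hk
  obtain ⟨p, hp, h1⟩ := hk
  rw [Bool.and_eq_true_iff, Bool.and_eq_true_iff, List.any_eq_true, List.all_eq_true] at h1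
  obtain ⟨h1, ⟨w0, hw0, hw0'⟩, h3⟩ := h1
  obtain ⟨hp1, hp2, hp3⟩ := adjL_spec p hp
  have hv : (⟨p.1, hp1⟩ : Fin 14) ∈ D := by
    have := testBit_code D ⟨p.1, hp1⟩
    simp only at this
    rw [this] at h1
    simpa using h1
  rcases hF.move D hD _ hv with h | ⟨w, hw, hwD, hF'⟩
  · have hw0D := h ⟨w0, hp3 w0 hw0⟩ (by rw [adj_nat, ← hp2]; exact hw0)
    have := testBit_code D ⟨w0, hp3 w0 hw0⟩
    simp only at this
    rw [this] at hw0'
    simp [hw0D] at hw0'
  · have h4 := h3 (w : ℕ) (by rw [hp2]; exact hw)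
    have h5 := hA _ hF'
    rw [code_move hv hwD] at h5
    simp only at h5
    rw [testBit_code, h5] at h4
    simp [hwD] at h4

lemma run_inv {k : ℕ} {F : Finset (Finset (Fin 14))} (hF : IsEternalFamily P k F) :
    ∀ (L : List ℕ) (A : ℕ), Inv F A → Inv F (run L A) := by
  intro L
  induction L with
  | nil => intro A h; exact h
  | cons m L ih =>
    intro A h
    unfold run
    by_cases hk : (kill A m && A.testBit m) = true
    · rw [hk]
      simp only [cond_true]
      apply ih
      intro D hD
      rw [Bool.and_eq_true_iff] at hk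
      have hne := kill_spec hF h hk.1 D hD
      rw [Nat.testBit_xor, Nat.testBit_two_pow, h D hD]
      simp [Ne.symm hne]
    · rw [Bool.not_eq_true] at hk
      rw [hk]
      simp only [cond_false]
      exact ih A h

theorem seven_le {k : ℕ} {F : Finset (Finset (Fin 14))} (hF : IsEternalFamily P k F) : 7 ≤ k := by
  by_contra hk
  have h0 : Inv F A0 := by
    intro D hD
    have h1 := chk1_code D
    unfold chk1 at h1
    rw [Bool.and_eq_true_iff] at h1
    have h2 := h1.1
    rw [dom_code (hF.dominating D hD), pc_code, hF.card_eq D hD] at h2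
    have h3 : Nat.ble k 6 = true := Nat.ble_eq_true_of_le (by omega)
    rw [h3] at h2
    simpa using h2
  have h1 := run_inv hF order A0 h0
  rw [run_zero] at h1
  obtain ⟨D, hD⟩ := hF.nonempty
  have := h1 D hD
  rw [Nat.zero_testBit] at this
  exact Bool.false_ne_true this

theorem indep_le {D : Finset (Fin 14)} (hD : P.IsIndepSet D) : D.card ≤ 5 := by
  have h1 := chk1_code D
  unfold chk1 at h1
  rw [Bool.and_eq_true_iff] at h1
  have h2 := h1.2
  rw [ind_code hD, pc_code] at h2
  have h3 : Nat.ble D.card 5 = true := by simpa using h2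
  exact Nat.le_of_ble_eq_true h3

lemma adj7 : ∀ v : Fin 14, P.Adj v (v + 7) := by decide +kernel

lemma tau : ∀ v : Fin 14, v + 7 + 7 = v := by decide +kernel

lemma tau_ne : ∀ v : Fin 14, v + 7 ≠ v := by decide +kernel

theorem family7 : IsEternalFamily P 7
    (Finset.univ.filter (fun D : Finset (Fin 14) => ∀ v, v ∈ D ↔ v + 7 ∉ D)) := by
  refine ⟨⟨Finset.univ.filter (fun v : Fin 14 => v < 7), ?_⟩, ?_, ?_, ?_⟩
  · rw [Finset.mem_filter]
    refine ⟨Finset.mem_univ _, ?_⟩
    simp only [Finset.mem_filter, Finset.mem_univ, true_and]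
    decide +kernel
  · intro D hD
    rw [Finset.mem_filter] at hD
    have h1 : D.image (fun v => v + 7) = Dᶜ := by
      ext u
      rw [Finset.mem_image, Finset.mem_compl]
      constructor
      · rintro ⟨v, hv, rfl⟩
        exact (hD.2 v).1 hv
      · intro hu
        refine ⟨u + 7, ?_, tau u⟩
        by_contra h
        exact hu ((hD.2 u).2 h)
    have h2 : (D.image (fun v => v + 7)).card = D.card :=
      Finset.card_image_of_injective _ (fun a b h => by
        have := congrArg (fun x => x + 7) h
        simp only [tau] at this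
        exact this)
    rw [h1, Finset.card_compl, Fintype.card_fin] at h2
    have h3 : D.card ≤ 14 := by simpa using Finset.card_le_univ D
    omega
  · intro D hD v
    rw [Finset.mem_filter] at hD
    by_cases h : v ∈ D
    · exact Or.inl h
    · refine Or.inr ⟨v + 7, ?_, adj7 v⟩
      by_contra h'
      exact h ((hD.2 v).2 h')
  · intro D hD v hv
    rw [Finset.mem_filter] at hD
    right
    refine ⟨v + 7, adj7 v, (hD.2 v).1 hv, ?_⟩
    rw [Finset.mem_filter]
    refine ⟨Finset.mem_univ _, ?_⟩
    intro u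
    simp only [Finset.mem_sdiff, Finset.mem_union, Finset.mem_singleton]
    have hu := hD.2 u
    have h7 : u + 7 = v + 7 ↔ u = v := by
      constructor
      · intro h
        have := congrArg (fun x => x + 7) h
        simp only [tau] at this
        exact this
      · intro h; rw [h]
    have h8 : u + 7 = v ↔ u = v + 7 := by
      constructor
      · intro h; rw [← h, tau]
      · intro h; rw [h, tau]
    rw [h7, h8]
    have h9 := tau_ne v
    by_cases h1 : u = v
    · subst h1
      simp
    · by_cases h2 : u = v + 7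
      · subst h2
        simp [h1]
      · simp [h1, h2, hu]

theorem eviction_eq : evictionNumber P = 7 := by
  apply le_antisymm
  · exact Nat.sInf_le ⟨_, family7⟩
  · refine le_csInf (Set.nonempty_of_mem (x := 7) ⟨_, family7⟩) ?_
    rintro k ⟨F, hF⟩
    exact seven_le hF

theorem indepNum_eq : P.indepNum = 5 := by
  apply le_antisymm
  · obtain ⟨s, hs⟩ := P.exists_isNIndepSet_indepNum
    rw [← hs.card_eq]
    exact indep_le hs.isIndepSet
  · have h : P.IsIndepSet ({0, 2, 4, 8, 12} : Finset (Fin 14)) := by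
      have : ∀ a ∈ ({0, 2, 4, 8, 12} : Finset (Fin 14)), ∀ b ∈ ({0, 2, 4, 8, 12} :
        Finset (Fin 14)), a ≠ b → ¬ P.Adj a b := by decide +kernel
      intro a ha b hb hab
      exact this a ha b hb hab
    have h2 := h.card_le_indepNum
    have h3 : ({0, 2, 4, 8, 12} : Finset (Fin 14)).card = 5 := by decide
    omega

theorem connected : P.Connected := by
  have h0 : ∀ v : Fin 14, P.Reachable 0 v := by
    have hs : ∀ a b : Fin 14, P.Adj a b → P.Reachable a b := fun a b h => h.reachable
    have h1 : P.Reachable 0 1 := hs _ _ (by decide +kernel)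
    have h2 : P.Reachable 0 2 := h1.trans (hs _ _ (by decide +kernel))
    have h3 : P.Reachable 0 3 := h2.trans (hs _ _ (by decide +kernel))
    have h4 : P.Reachable 0 4 := h3.trans (hs _ _ (by decide +kernel))
    have h5 : P.Reachable 0 5 := h4.trans (hs _ _ (by decide +kernel))
    have h6 : P.Reachable 0 6 := h5.trans (hs _ _ (by decide +kernel))
    have h7 : P.Reachable 0 7 := hs _ _ (by decide +kernel)
    have h8 : P.Reachable 0 8 := h1.trans (hs _ _ (by decide +kernel))
    have h9 : P.Reachable 0 9 := h2.trans (hs _ _ (by decide +kernel))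
    have h10 : P.Reachable 0 10 := h3.trans (hs _ _ (by decide +kernel))
    have h11 : P.Reachable 0 11 := h4.trans (hs _ _ (by decide +kernel))
    have h12 : P.Reachable 0 12 := h5.trans (hs _ _ (by decide +kernel))
    have h13 : P.Reachable 0 13 := h6.trans (hs _ _ (by decide +kernel))
    intro v
    fin_cases v
    · exact SimpleGraph.Reachable.refl _
    all_goals assumption
  have : Nonempty (Fin 14) := ⟨0⟩
  exact ⟨fun a b => (h0 a).symm.trans (h0 b)⟩

end Pool.Agent.Q238.EV
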